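import Pool.Agent.Helper87.Irr.GoalsT

/-!
MP_033e98_co, cluster route (helper87): `TThrough` from `PStep` and `RE`.
-/

namespace Irr87

open Irr37

/-- distinct deficits below `p` give distinct weights -/
theorem H74.wts_nodup {p : ℕ} {Ds : List ℕ} (hn : Ds.Nodup) (hlt : ∀ D ∈ Ds, D < p) :
    (wts p Ds).Nodup := by
  rw [wts, Multiset.coe_nodup]
  refine List.Nodup.map_on ?_ hn
  intro a ha b hb hab
  have h1 := hlt a ha
  have h2 := hlt b hb
  omega

theorem H74.ChS_lt {p S : ℕ} {Ds : List ℕ} {h : ℕ} (hc : ChS p S Ds h) : ∀ D ∈ Ds, D < p := by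
  obtain ⟨D, l, rfl, h1, h2, h3, h4⟩ := hc
  intro D' hD'
  rcases List.mem_cons.1 hD' with rfl | hD'
  · exact h3
  · exact h4.le D' hD'

/-- a star with a single run -/
theorem H74.star_one {p C n : ℕ} {V : Finset ℕ} (h : Star p V C [(n, p)]) :
    ∃ (Ds : List ℕ) (h w : ℕ), Ds.length = n ∧ ChS p p Ds h ∧ h < p ∧ Ds.Nodup ∧
      (∀ D ∈ Ds, 2 * p - D ∉ V ∧ 2 * p - D ≠ w) ∧ w + h = C + p ∧ p < w ∧ w ∉ V := by
  obtain ⟨Dss, hs, w, hr, hn, hD, hw, hpw, hwV⟩ := h
  match Dss, hs, hr with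
  | [Ds], [h], hr =>
    obtain ⟨h1, h2, h3, _⟩ := hr
    refine ⟨Ds, h, w, h1, h2, h3, by simpa using hn, by simpa using hD, ?_, hpw, hwV⟩
    simpa using hw
  | [], [], hr => simp [Runs] at hr
  | [], _ :: _, hr => simp [Runs] at hr
  | _ :: _, [], hr => simp [Runs] at hr
  | _ :: _ :: _, [_], hr => simp [Runs] at hr
  | [_], _ :: _ :: _, hr => simp [Runs] at hr
  | _ :: _ :: _, _ :: _ :: _, hr => simp [Runs] at hr

theorem H74.split_card {A : Multiset ℕ} {k : ℕ} (h : k ≤ Multiset.card A) :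
    ∃ B ≤ A, Multiset.card B = k := by
  induction A using Quotient.inductionOn with
  | h l =>
    refine ⟨((l.take k : List ℕ) : Multiset ℕ), ?_, ?_⟩
    · exact Multiset.coe_le.2 (List.take_sublist k l).subperm
    · have h' : k ≤ l.length := h
      rw [Multiset.coe_card, List.length_take]
      omega

/-- T4 -/
theorem tThrough (hP : PStep) (hR : RE) : TThrough := by
  intro p s z l l' n M y g hz hn hl' hM hy hg V fill hV hcard hlab hfill hnd
  simp only [RF.size, app_size, zrun_size, RF.leaves, app_leaves, zrun_leaves,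
    Multiset.card_singleton] at hcard hlab
  -- split the further labels
  obtain ⟨A, hA1, hA2⟩ := H74.split_card (A := fill) (k := l) (by omega)
  obtain ⟨B, rfl⟩ := Multiset.le_iff_exists_add.1 hA1
  rw [Multiset.card_add] at hlab
  have hB : Multiset.card (M ::ₘ B) = l' := by
    rw [Multiset.card_cons]; omega
  have hpg : p ≤ p * g.width := Nat.le_mul_of_pos_right p hg
  obtain ⟨x, hx1, hx2, hx3, hx4, hx5⟩ := hP p z (A.sum + p * g.width + (p - z)) V hV (by omega)
    (by omega)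
  set w₁ := A.sum + p * g.width + (p - z) + x with hw₁
  have hc2 : (insert w₁ V).card ≤ V.card + 1 := Finset.card_insert_le _ _
  obtain ⟨Ds, h, w, h1, h2, h3, h4, h5, h6, h7, h8⟩ := H74.star_one
    (hR p n (p - M) (p - x) (M + B.sum + x) (insert w₁ V) hn hx5 (by omega) (by omega))
  have hp : 1 ≤ p := by omega
  have ps1 := PS.openRun hp hy h2
  rw [h1] at ps1
  have ps2 := PS.vert (A := M ::ₘ B) hx1 hx2 ps1 (PS.cutAll p g)
  have ps3 := PS.single (A := A) (y := p - z) (by omega) (by omega) ps2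
  have e1 : A.sum + (x + p * g.width) + (p - z) = w₁ := by omega
  have e2 : (M ::ₘ B).sum + (p - h) + x = w := by
    rw [Multiset.sum_cons]; omega
  rw [hB, hA2, e1, e2] at ps3
  have e3 : A + (M ::ₘ B + 0 + 0) = {M} + (A + B) := by
    rw [add_zero, add_zero, ← Multiset.singleton_add]
    abel
  rw [e3, add_zero] at ps3
  refine ⟨_, ps3, ?_, ?_⟩
  · have hwn := H74.wts_nodup h4 (H74.ChS_lt h2)
    rw [Multiset.nodup_cons, Multiset.nodup_cons, Multiset.mem_cons]
    refine ⟨?_, ?_, hwn⟩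
    · rintro (h0 | h0)
      · exact h8 (h0 ▸ Finset.mem_insert_self _ _)
      · obtain ⟨D, hD, hD'⟩ := mem_wts.1 h0
        exact (h5 D hD).1 (hD' ▸ Finset.mem_insert_self _ _)
    · intro h0
      obtain ⟨D, hD, hD'⟩ := mem_wts.1 h0
      exact (h5 D hD).2 hD'
  · intro u hu
    rcases Multiset.mem_cons.1 hu with rfl | hu
    · exact ⟨hx3, hx4⟩
    rcases Multiset.mem_cons.1 hu with rfl | hu
    · exact ⟨h7, fun hc => h8 (Finset.mem_insert_of_mem hc)⟩
    obtain ⟨D, hD, hD'⟩ := mem_wts.1 hu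
    have hDp := H74.ChS_lt h2 D hD
    refine ⟨by omega, fun hc => (h5 D hD).1 ?_⟩
    rw [hD']
    exact Finset.mem_insert_of_mem hc

end Irr87
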