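import Pool.Agent.Helper74.Irr.TThrough

/-!
MP_033e98_co, cluster route (helper87): `UHubRun`, `UCRun` from `RE`, and `UThin` from `EL`.
-/

namespace Irr87

open Irr37

theorem H74.in_zero (p : ℕ) (V : Finset ℕ) : In p V 0 := fun y hy => by
  have : y = 0 := by omega
  subst this
  exact Nat.zero_le _

/-- a root with labels `A` and constant contribution `p * g.width`, next to an open run -/
theorem H74.rootRun (hR : RE) {p n : ℕ} {y g : RF} {V : Finset ℕ} {A : Multiset ℕ} (hn : 1 ≤ n)
    (hy : y.width = 1) (hC : 2 * p ≤ A.sum + p * g.width) (hcard : V.card + 1 + n ≤ p + 1) :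
    ∃ (x : ℕ) (W : Multiset ℕ), PS p (app (zrun n y) g) x W 0 (app y g) ∧
      ((A.sum + x) ::ₘ W).Nodup ∧ ∀ u ∈ (A.sum + x) ::ₘ W, p < u ∧ u ∉ V := by
  obtain ⟨Ds, h, w, h1, h2, h3, h4, h5, h6, h7, h8⟩ := H74.star_one
    (hR p n 0 0 (A.sum + p * g.width) V hn (H74.in_zero p V) (by omega) (by omega))
  have ps1 := PS.openRun (by omega) hy h2
  rw [h1] at ps1
  have ps2 := ps1.app (PS.cutAll p g)
  rw [add_zero, add_zero] at ps2
  have e1 : A.sum + (p - h + p * g.width) = w := by omega
  refine ⟨_, _, ps2, ?_, ?_⟩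
  · rw [e1, Multiset.nodup_cons]
    refine ⟨?_, H74.wts_nodup h4 (H74.ChS_lt h2)⟩
    intro h0
    obtain ⟨D, hD, hD'⟩ := mem_wts.1 h0
    exact (h5 D hD).2 hD'
  · rw [e1]
    intro u hu
    rcases Multiset.mem_cons.1 hu with rfl | hu
    · exact ⟨h7, h8⟩
    obtain ⟨D, hD, hD'⟩ := mem_wts.1 hu
    have hDp := H74.ChS_lt h2 D hD
    refine ⟨by omega, fun hc => (h5 D hD).1 ?_⟩
    rw [hD']
    exact hc

/-- U2 -/
theorem uHubRun (hR : RE) : UHubRun := by
  intro p l n y g hn hy hg V fill hcard hlab hfill hnd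
  simp only [app_size, zrun_size, app_leaves, zrun_leaves, Multiset.card_zero] at hcard hlab
  have hpg : p * 2 ≤ p * g.width := Nat.mul_le_mul_left p hg
  obtain ⟨x, W, h1, h2, h3⟩ := H74.rootRun hR (p := p) (A := fill) (V := V) (g := g) hn hy (by omega)
    (by omega)
  exact ⟨fill, x, W, 0, by omega, h1, by rw [add_zero, zero_add], h2, h3⟩

/-- U3 -/
theorem uCRun (hR : RE) : UCRun := by
  intro p l n y g hn hy hl hg V fill hcard hlab hfill hnd
  simp only [app_size, zrun_size, app_leaves, zrun_leaves, Multiset.card_singleton] at hcard hlab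
  obtain ⟨x, W, h1, h2, h3⟩ := H74.rootRun hR (p := p) (A := {p} + fill) (V := V) (g := g) hn hy
    (by rw [hg, Multiset.sum_add, Multiset.sum_singleton]; omega) (by omega)
  refine ⟨{p} + fill, x, W, 0, ?_, h1, by rw [add_zero], h2, h3⟩
  rw [Multiset.card_add, Multiset.card_singleton]
  omega

/-- U5 -/
theorem uThin (hE : EL) : UThin := by
  intro p l g hg V fill hcard hlab hfill hnd
  simp only [RF.size, RF.leaves, Multiset.card_singleton] at hcard hlab
  have hpg : p * 2 ≤ p * g.width := Nat.mul_le_mul_left p hg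
  obtain ⟨x, hx1, hx2, hx3, hx4, hx5, hx6, hx7⟩ := hE p 0 0 (fill.sum + p * g.width) p V
    (H74.in_zero p V) (by omega) (by omega) (by omega) (by omega)
  have ps2 := PS.vert (A := {p}) hx1 hx2 (PS.nil (p := p)) (PS.cutAll p g)
  have e1 : fill.sum + (x + p * g.width) = fill.sum + p * g.width + x := by omega
  rw [Multiset.card_singleton, Multiset.sum_singleton, nil_app] at ps2
  simp only [add_zero] at ps2
  refine ⟨fill, _, _, _, by omega, ps2, by abel, ?_, ?_⟩
  · rw [e1, Multiset.nodup_cons]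
    refine ⟨?_, by simp⟩
    intro h0
    exact hx7 (by simpa using h0)
  · rw [e1]
    intro u hu
    rcases Multiset.mem_cons.1 hu with rfl | hu
    · exact ⟨hx5, hx6⟩
    · have hu' : u = p + x := by simpa using hu
      subst hu'
      exact ⟨hx3, hx4⟩

end Irr87
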